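import Mathlib

set_option autoImplicit false

namespace Pool.Agent.Helper53.CP

open Finset Polynomial

lemma two_ne_three {j a k : ℕ} (hk : 1 ≤ k) (h : ¬ (j = 0 ∧ a = 0)) :
    ((2 : ℤ) ^ j) ^ k ≠ ((3 : ℤ) ^ a) ^ k := by
  intro he
  rcases Nat.eq_zero_or_pos j with hj | hj
  · subst hj
    have ha : 1 ≤ a := by omega
    rw [pow_zero, one_pow, ← pow_mul] at he
    have h1 : (3 : ℤ) ^ 1 ≤ 3 ^ (a * k) := pow_le_pow_right₀ (by norm_num) (Nat.mul_pos ha hk)
    linarith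
  · have h1 : (2 : ℤ) ∣ ((2 : ℤ) ^ j) ^ k := by
      rw [← pow_mul]
      exact dvd_pow_self 2 (by positivity)
    rw [he, ← pow_mul] at h1
    have h2 : (2 : ℤ) ∣ 3 := Int.prime_two.dvd_of_dvd_pow h1
    revert h2; decide

/-- `|α^k X ∓ β^k X| ≥ |X|` -/
lemma lead_ge {j a k : ℕ} (hk : 1 ≤ k) (h : ¬ (j = 0 ∧ a = 0)) {X Y : ℚ} (hXY : |X| = |Y|) :
    |X| ≤ |((2 : ℚ) ^ j) ^ k * X - ((3 : ℚ) ^ a) ^ k * Y| := by
  have h1 := two_ne_three hk h
  have h2 : (1 : ℚ) ≤ |((2 : ℚ) ^ j) ^ k - ((3 : ℚ) ^ a) ^ k| := by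
    have h3 : (1 : ℤ) ≤ |((2 : ℤ) ^ j) ^ k - ((3 : ℤ) ^ a) ^ k| := Int.one_le_abs (sub_ne_zero.2 h1)
    exact_mod_cast h3
  have h4 : (0 : ℚ) < ((2 : ℚ) ^ j) ^ k := by positivity
  have h5 : (0 : ℚ) < ((3 : ℚ) ^ a) ^ k := by positivity
  have h6 : (1 : ℚ) ≤ ((2 : ℚ) ^ j) ^ k + ((3 : ℚ) ^ a) ^ k := by
    have : (1 : ℚ) ≤ ((2 : ℚ) ^ j) ^ k := by
      apply one_le_pow₀
      exact one_le_pow₀ (by norm_num)
    linarith
  rcases abs_eq_abs.1 hXY with hXY | hXY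
  · rw [hXY, ← sub_mul, abs_mul]
    exact le_mul_of_one_le_left (abs_nonneg _) h2
  · rw [hXY]
    have e : ((2 : ℚ) ^ j) ^ k * -Y - ((3 : ℚ) ^ a) ^ k * Y =
        -((((2 : ℚ) ^ j) ^ k + ((3 : ℚ) ^ a) ^ k) * Y) := by ring
    rw [e, abs_neg, abs_neg, abs_mul, abs_of_pos (by positivity : (0 : ℚ) < ((2 : ℚ) ^ j) ^ k + ((3 : ℚ) ^ a) ^ k)]
    exact le_mul_of_one_le_left (abs_nonneg _) h6

/-- powers of numbers with bounded denominator are far apart or have the same absolute value -/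
lemma pow_gap {D₀ : ℕ} (hD₀ : 1 ≤ D₀) {A B : ℚ} (hA : ∃ z : ℤ, (D₀ : ℚ) * A = z)
    (hB : ∃ z : ℤ, (D₀ : ℚ) * B = z) {d : ℕ} (hd : 1 ≤ d) {M : ℚ} (hM1 : 1 ≤ M)
    (hM : M = max |A| |B|) (hne : A ^ d ≠ B ^ d) : M ^ (d - 1) ≤ D₀ * |A ^ d - B ^ d| := by
  have hD : (1 : ℚ) ≤ D₀ := by exact_mod_cast hD₀
  -- general fact for `0 ≤ y < x`
  have key : ∀ x y : ℚ, 0 ≤ y → y < x → 1 / (D₀ : ℚ) ≤ x - y → x ^ (d - 1) ≤ D₀ * (x ^ d - y ^ d) := by
    intro x y hy hyx hgap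
    have hx : 0 ≤ x := hy.trans hyx.le
    have h1 : y ^ d ≤ y * x ^ (d - 1) := by
      have e : y ^ d = y * y ^ (d - 1) := by rw [← pow_succ']; congr 1; omega
      rw [e]
      exact mul_le_mul_of_nonneg_left (pow_le_pow_left₀ hy hyx.le _) hy
    have h2 : x ^ d = x * x ^ (d - 1) := by rw [← pow_succ']; congr 1; omega
    have h3 : (x - y) * x ^ (d - 1) ≤ x ^ d - y ^ d := by rw [h2]; linarith
    have h4 : 0 ≤ x ^ (d - 1) := by positivity
    have h5 : 1 ≤ (D₀ : ℚ) * (x - y) := by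
      rw [div_le_iff₀ (by linarith)] at hgap
      linarith
    calc x ^ (d - 1) ≤ ((D₀ : ℚ) * (x - y)) * x ^ (d - 1) := le_mul_of_one_le_left h4 h5
      _ = D₀ * ((x - y) * x ^ (d - 1)) := by ring
      _ ≤ D₀ * (x ^ d - y ^ d) := mul_le_mul_of_nonneg_left h3 (by linarith)
  by_cases habs : |A| = |B|
  · -- then `A ^ d = - B ^ d`
    have h1 : |A ^ d| = |B ^ d| := by rw [abs_pow, abs_pow, habs]
    rcases abs_eq_abs.1 h1 with h2 | h2
    · exact absurd h2 hne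
    · have hMA : M = |B| := by rw [hM, habs, max_self]
      have e : A ^ d - B ^ d = -(2 * B ^ d) := by rw [h2]; ring
      rw [e, abs_neg, abs_mul, abs_pow, ← hMA, abs_of_pos (by norm_num : (0 : ℚ) < 2)]
      have h3 : M ^ (d - 1) ≤ M ^ d := pow_le_pow_right₀ hM1 (by omega)
      have h4 : 0 < M ^ d := by positivity
      nlinarith
  · obtain ⟨za, hza⟩ := hA
    obtain ⟨zb, hzb⟩ := hB
    have hDpos : (0 : ℚ) < D₀ := by linarith
    have hgap : ∀ X Y : ℚ, (∃ z : ℤ, (D₀ : ℚ) * X = z) → (∃ z : ℤ, (D₀ : ℚ) * Y = z) →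
        |Y| < |X| → 1 / (D₀ : ℚ) ≤ |X| - |Y| := by
      rintro X Y ⟨zx, hzx⟩ ⟨zy, hzy⟩ hlt
      rw [div_le_iff₀ hDpos]
      have h1 : |X| * D₀ = ((|zx| : ℤ) : ℚ) := by
        rw [Int.cast_abs, ← hzx, abs_mul, abs_of_pos hDpos]; ring
      have h2 : |Y| * D₀ = ((|zy| : ℤ) : ℚ) := by
        rw [Int.cast_abs, ← hzy, abs_mul, abs_of_pos hDpos]; ring
      have h3 : |Y| * D₀ < |X| * D₀ := mul_lt_mul_of_pos_right hlt hDpos
      rw [h1, h2] at h3
      have h4 : |zy| + 1 ≤ |zx| := by exact_mod_cast h3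
      have h5 : ((|zy| : ℤ) : ℚ) + 1 ≤ ((|zx| : ℤ) : ℚ) := by exact_mod_cast h4
      rw [sub_mul, h1, h2]
      linarith
    rcases lt_or_gt_of_ne habs with h | h
    · have h1 := key |B| |A| (abs_nonneg _) h (hgap B A ⟨zb, hzb⟩ ⟨za, hza⟩ h)
      have h2 : M = |B| := by rw [hM]; exact max_eq_right h.le
      rw [h2]
      refine h1.trans (mul_le_mul_of_nonneg_left ?_ hDpos.le)
      rw [← abs_pow, ← abs_pow, abs_sub_comm]
      exact abs_sub_abs_le_abs_sub _ _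
    · have h1 := key |A| |B| (abs_nonneg _) h (hgap A B ⟨za, hza⟩ ⟨zb, hzb⟩ h)
      have h2 : M = |A| := by rw [hM]; exact max_eq_left h.le
      rw [h2]
      refine h1.trans (mul_le_mul_of_nonneg_left ?_ hDpos.le)
      rw [← abs_pow, ← abs_pow]
      exact abs_sub_abs_le_abs_sub _ _

/-- **Runge.** -/
theorem runge (F : ℚ[X]) (d D₀ : ℕ) (hd : 2 ≤ d) (hdeg : F.natDegree = d)
    (hc : F.coeff d ≠ 0) (hsub : F.coeff (d - 1) = 0) (hD₀ : 1 ≤ D₀) :
    ∃ K : ℚ, 1 ≤ K ∧ ∀ (z z' φ W : ℚ) (j a : ℕ), (∃ y : ℤ, (D₀ : ℚ) * z = y) →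
      (∃ y : ℤ, (D₀ : ℚ) * z' = y) → ¬ (j = 0 ∧ a = 0) → 1 ≤ W →
      ((2 : ℚ) ^ j) ^ d ≤ W → ((3 : ℚ) ^ a) ^ d ≤ W → |φ| ≤ W → K * W < |z| →
      ((2 : ℚ) ^ j) ^ d * F.eval z' - ((3 : ℚ) ^ a) ^ d * F.eval z = φ →
      (∀ i, 1 ≤ i → i < d → F.coeff i = 0) ∧
      F.coeff 0 * (((2 : ℚ) ^ j) ^ d - ((3 : ℚ) ^ a) ^ d) = φ ∧
      |(2 : ℚ) ^ j * z'| = |(3 : ℚ) ^ a * z| := by
  classical
  set G : ℚ := ∑ i ∈ range (d + 1), |F.coeff i| with hG
  have hG0 : 0 ≤ G := Finset.sum_nonneg (fun i _ => abs_nonneg _)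
  set K : ℚ := D₀ * ∑ i ∈ range (d + 1), (1 + 2 * G) / |F.coeff i| + 1 with hK
  have hDr : (1 : ℚ) ≤ D₀ := by exact_mod_cast hD₀
  have hsum0 : 0 ≤ ∑ i ∈ range (d + 1), (1 + 2 * G) / |F.coeff i| :=
    Finset.sum_nonneg (fun i _ => by positivity)
  have hKone : 1 ≤ K := by
    have : 0 ≤ (D₀ : ℚ) * ∑ i ∈ range (d + 1), (1 + 2 * G) / |F.coeff i| := by positivity
    linarith
  have hKi' : ∀ i ≤ d, D₀ * ((1 + 2 * G) / |F.coeff i|) ≤ K := by
    intro i hi
    have h1 : (1 + 2 * G) / |F.coeff i| ≤ ∑ i ∈ range (d + 1), (1 + 2 * G) / |F.coeff i| :=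
      Finset.single_le_sum (f := fun i => (1 + 2 * G) / |F.coeff i|) (fun i _ => by positivity)
        (Finset.mem_range.2 (by omega))
    have h2 := mul_le_mul_of_nonneg_left h1 (by linarith : (0 : ℚ) ≤ D₀)
    rw [hK]
    linarith
  have hKi : ∀ i ≤ d, (1 + 2 * G) / |F.coeff i| ≤ K := by
    intro i hi
    have h1 : 0 ≤ (1 + 2 * G) / |F.coeff i| := by positivity
    exact (le_mul_of_one_le_left h1 hDr).trans (hKi' i hi)
  refine ⟨K, hKone, ?_⟩
  intro z z' φ W j a hz hz' hja hW hα hβ hφ hbig heq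
  set α : ℚ := (2 : ℚ) ^ j with hαd
  set β : ℚ := (3 : ℚ) ^ a with hβd
  have hα1 : 1 ≤ α := one_le_pow₀ (by norm_num)
  have hβ1 : 1 ≤ β := one_le_pow₀ (by norm_num)
  set A : ℚ := α * z' with hA
  set B : ℚ := β * z with hB
  set M : ℚ := max |A| |B| with hM
  have hMz : K * W < M := by
    have h1 : |z| ≤ |B| := by
      rw [hB, abs_mul, abs_of_pos (by positivity : (0 : ℚ) < β)]
      exact le_mul_of_one_le_left (abs_nonneg _) hβ1
    exact lt_of_lt_of_le hbig (h1.trans (le_max_right _ _))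
  have hM1 : 1 ≤ M := by nlinarith
  have hM0 : 0 ≤ M := by linarith
  -- expansion
  have hexp : ∑ i ∈ range (d + 1), F.coeff i * (α ^ (d - i) * A ^ i - β ^ (d - i) * B ^ i) = φ := by
    rw [← heq, Polynomial.eval_eq_sum_range, Polynomial.eval_eq_sum_range, hdeg, Finset.mul_sum,
      Finset.mul_sum, ← Finset.sum_sub_distrib]
    apply Finset.sum_congr rfl
    intro i hi
    have hi' : i ≤ d := by have := Finset.mem_range.1 hi; omega
    have e1 : α ^ d = α ^ (d - i) * α ^ i := by rw [← pow_add]; congr 1; omega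
    have e2 : β ^ d = β ^ (d - i) * β ^ i := by rw [← pow_add]; congr 1; omega
    rw [e1, e2, hA, hB, mul_pow, mul_pow]
    ring
  have hgi : ∀ i ≤ d, |F.coeff i * (α ^ (d - i) * A ^ i - β ^ (d - i) * B ^ i)| ≤
      |F.coeff i| * (2 * W * M ^ i) := by
    intro i hi
    rw [abs_mul]
    apply mul_le_mul_of_nonneg_left _ (abs_nonneg _)
    have h1 : α ^ (d - i) ≤ W := (pow_le_pow_right₀ hα1 (by omega)).trans hα
    have h2 : β ^ (d - i) ≤ W := (pow_le_pow_right₀ hβ1 (by omega)).trans hβ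
    have h3 : |A ^ i| ≤ M ^ i := by
      rw [abs_pow]; exact pow_le_pow_left₀ (abs_nonneg _) (le_max_left _ _) _
    have h4 : |B ^ i| ≤ M ^ i := by
      rw [abs_pow]; exact pow_le_pow_left₀ (abs_nonneg _) (le_max_right _ _) _
    calc |α ^ (d - i) * A ^ i - β ^ (d - i) * B ^ i| ≤ |α ^ (d - i) * A ^ i| + |β ^ (d - i) * B ^ i| :=
          abs_sub _ _
      _ = α ^ (d - i) * |A ^ i| + β ^ (d - i) * |B ^ i| := by
          rw [abs_mul, abs_mul, abs_of_pos (by positivity : (0 : ℚ) < α ^ (d - i)),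
            abs_of_pos (by positivity : (0 : ℚ) < β ^ (d - i))]
      _ ≤ W * M ^ i + W * M ^ i := by
          apply add_le_add
          · exact mul_le_mul h1 h3 (abs_nonneg _) (by linarith)
          · exact mul_le_mul h2 h4 (abs_nonneg _) (by linarith)
      _ = 2 * W * M ^ i := by ring
  -- partial sums are small
  have hpart : ∀ n, n ≤ d → |φ - ∑ i ∈ range (n + 1),
      F.coeff i * (α ^ (d - i) * A ^ i - β ^ (d - i) * B ^ i)| ≤ (1 + 2 * G) * W * M ^ n := by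
    intro n hn
    have h1 : |∑ i ∈ range (n + 1), F.coeff i * (α ^ (d - i) * A ^ i - β ^ (d - i) * B ^ i)| ≤
        2 * G * W * M ^ n := by
      calc |∑ i ∈ range (n + 1), F.coeff i * (α ^ (d - i) * A ^ i - β ^ (d - i) * B ^ i)|
          ≤ ∑ i ∈ range (n + 1), |F.coeff i * (α ^ (d - i) * A ^ i - β ^ (d - i) * B ^ i)| :=
            Finset.abs_sum_le_sum_abs _ _
        _ ≤ ∑ i ∈ range (n + 1), |F.coeff i| * (2 * W * M ^ n) := by
            apply Finset.sum_le_sum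
            intro i hi
            have hi' : i ≤ n := by have := Finset.mem_range.1 hi; omega
            refine (hgi i (by omega)).trans (mul_le_mul_of_nonneg_left ?_ (abs_nonneg _))
            exact mul_le_mul_of_nonneg_left (pow_le_pow_right₀ hM1 hi') (by positivity)
        _ = (∑ i ∈ range (n + 1), |F.coeff i|) * (2 * W * M ^ n) := by rw [Finset.sum_mul]
        _ ≤ G * (2 * W * M ^ n) := by
            apply mul_le_mul_of_nonneg_right _ (by positivity)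
            apply Finset.sum_le_sum_of_subset_of_nonneg
            · intro i hi
              rw [Finset.mem_range] at hi ⊢
              omega
            · intro i _ _; exact abs_nonneg _
        _ = 2 * G * W * M ^ n := by ring
    have h2 : |φ| ≤ W * M ^ n := by
      refine hφ.trans ?_
      exact le_mul_of_one_le_right (by linarith) (one_le_pow₀ hM1)
    calc |φ - ∑ i ∈ range (n + 1), F.coeff i * (α ^ (d - i) * A ^ i - β ^ (d - i) * B ^ i)|
        ≤ |φ| + |∑ i ∈ range (n + 1), F.coeff i * (α ^ (d - i) * A ^ i - β ^ (d - i) * B ^ i)| :=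
          abs_sub _ _
      _ ≤ W * M ^ n + 2 * G * W * M ^ n := add_le_add h2 h1
      _ = (1 + 2 * G) * W * M ^ n := by ring
  -- the top terms
  have hDA : ∃ y : ℤ, (D₀ : ℚ) * A = y := by
    obtain ⟨y, hy⟩ := hz'
    refine ⟨2 ^ j * y, ?_⟩
    push_cast
    rw [hA, ← hy, ← hαd]; ring
  have hDB : ∃ y : ℤ, (D₀ : ℚ) * B = y := by
    obtain ⟨y, hy⟩ := hz
    refine ⟨3 ^ a * y, ?_⟩
    push_cast
    rw [hB, ← hy, ← hβd]; ring
  have hpoweq : A ^ d = B ^ d := by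
    by_contra hne
    have h1 := pow_gap hD₀ hDA hDB (by omega : 1 ≤ d) hM1 hM hne
    have h2 := hpart (d - 2) (by omega)
    have h3 : φ - ∑ i ∈ range (d - 2 + 1), F.coeff i * (α ^ (d - i) * A ^ i - β ^ (d - i) * B ^ i) =
        F.coeff d * (A ^ d - B ^ d) := by
      have e' : d - 2 + 1 = d - 1 := by omega
      have e'' : d = (d - 1) + 1 := by omega
      rw [← hexp, e', Finset.sum_range_succ]
      have h9 : ∑ i ∈ range d, F.coeff i * (α ^ (d - i) * A ^ i - β ^ (d - i) * B ^ i) =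
          ∑ i ∈ range (d - 1), F.coeff i * (α ^ (d - i) * A ^ i - β ^ (d - i) * B ^ i) := by
        have h10 := Finset.sum_range_succ
          (fun i => F.coeff i * (α ^ (d - i) * A ^ i - β ^ (d - i) * B ^ i)) (d - 1)
        rw [← e''] at h10
        rw [h10, hsub, zero_mul, add_zero]
      rw [h9]
      simp
    rw [h3, abs_mul] at h2
    have hcpos : 0 < |F.coeff d| := abs_pos.2 hc
    have h4 : |A ^ d - B ^ d| ≤ (1 + 2 * G) / |F.coeff d| * W * M ^ (d - 2) := by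
      have h41 : (1 + 2 * G) / |F.coeff d| * W * M ^ (d - 2) =
          ((1 + 2 * G) * W * M ^ (d - 2)) / |F.coeff d| := by ring
      rw [h41, le_div_iff₀ hcpos]
      linarith
    have h5 : M ^ (d - 1) = M * M ^ (d - 2) := by rw [← pow_succ']; congr 1; omega
    have h6 : M * M ^ (d - 2) ≤ (D₀ * ((1 + 2 * G) / |F.coeff d|) * W) * M ^ (d - 2) := by
      rw [← h5]
      calc M ^ (d - 1) ≤ D₀ * |A ^ d - B ^ d| := h1
        _ ≤ D₀ * ((1 + 2 * G) / |F.coeff d| * W * M ^ (d - 2)) := by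
            apply mul_le_mul_of_nonneg_left h4 (by linarith)
        _ = (D₀ * ((1 + 2 * G) / |F.coeff d|) * W) * M ^ (d - 2) := by ring
    have h7 : 0 < M ^ (d - 2) := by positivity
    have h8 : M ≤ D₀ * ((1 + 2 * G) / |F.coeff d|) * W := le_of_mul_le_mul_right h6 h7
    have h9 : D₀ * ((1 + 2 * G) / |F.coeff d|) * W ≤ K * W :=
      mul_le_mul_of_nonneg_right (hKi' d le_rfl) (by linarith)
    linarith
  have habs : |A| = |B| := by
    have h1 : |A| ^ d = |B| ^ d := by rw [← abs_pow, ← abs_pow, hpoweq]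
    exact (pow_left_inj₀ (abs_nonneg _) (abs_nonneg _) (by omega)).1 h1
  have hMA : |A| = M := by rw [hM, habs, max_self]
  have hMB : |B| = M := by rw [← habs, hMA]
  -- the middle coefficients vanish
  have hmid : ∀ i, 1 ≤ i → i < d → F.coeff i = 0 := by
    by_contra hcon
    push Not at hcon
    obtain ⟨i₁, hi₁⟩ := hcon
    set Bad : Finset ℕ := (range d).filter (fun i => 1 ≤ i ∧ F.coeff i ≠ 0) with hBad
    have hne : Bad.Nonempty := ⟨i₁, by
      rw [hBad, Finset.mem_filter, Finset.mem_range]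
      exact ⟨hi₁.2.1, hi₁.1, hi₁.2.2⟩⟩
    set i₀ := Bad.max' hne with hi₀
    have hmem : i₀ ∈ Bad := Bad.max'_mem hne
    rw [hBad, Finset.mem_filter, Finset.mem_range] at hmem
    obtain ⟨hi₀d, hi₀1, hi₀ne⟩ := hmem
    have hafter : ∀ i, i₀ < i → i < d → F.coeff i = 0 := by
      intro i h1 h2
      by_contra h3
      have h4 : i ∈ Bad := by
        rw [hBad, Finset.mem_filter, Finset.mem_range]
        exact ⟨h2, by omega, h3⟩
      have h5 := Bad.le_max' i h4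
      omega
    have h1 := hpart (i₀ - 1) (by omega)
    have h2 : φ - ∑ i ∈ range (i₀ - 1 + 1), F.coeff i * (α ^ (d - i) * A ^ i - β ^ (d - i) * B ^ i) =
        F.coeff i₀ * (α ^ (d - i₀) * A ^ i₀ - β ^ (d - i₀) * B ^ i₀) := by
      rw [← hexp, Nat.sub_add_cancel hi₀1]
      rw [← Finset.sum_range_add_sum_Ico _ (by omega : i₀ ≤ d + 1), add_sub_cancel_left]
      rw [Finset.sum_eq_single_of_mem i₀ (Finset.mem_Ico.2 ⟨le_rfl, by omega⟩)]
      intro i hi hne'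
      rw [Finset.mem_Ico] at hi
      rcases Nat.lt_or_ge i d with h3 | h3
      · rw [hafter i (by omega) h3, zero_mul]
      · have : i = d := by omega
        rw [this, Nat.sub_self, pow_zero, pow_zero, one_mul, one_mul, hpoweq, sub_self, mul_zero]
    rw [h2, abs_mul] at h1
    have h3 : |A ^ i₀| = |B ^ i₀| := by rw [abs_pow, abs_pow, habs]
    have h4 := lead_ge (j := j) (a := a) (k := d - i₀) (by omega) hja h3
    rw [← hαd, ← hβd, abs_pow A, hMA] at h4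
    have h5 : M ^ i₀ = M * M ^ (i₀ - 1) := by rw [← pow_succ']; congr 1; omega
    have hFpos : 0 < |F.coeff i₀| := abs_pos.2 hi₀ne
    have h6 : |F.coeff i₀| * M * M ^ (i₀ - 1) ≤ (1 + 2 * G) * W * M ^ (i₀ - 1) := by
      calc |F.coeff i₀| * M * M ^ (i₀ - 1) = |F.coeff i₀| * M ^ i₀ := by rw [h5]; ring
        _ ≤ |F.coeff i₀| * |α ^ (d - i₀) * A ^ i₀ - β ^ (d - i₀) * B ^ i₀| :=
            mul_le_mul_of_nonneg_left h4 hFpos.le
        _ ≤ (1 + 2 * G) * W * M ^ (i₀ - 1) := h1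
    have h7 : |F.coeff i₀| * M ≤ (1 + 2 * G) * W := le_of_mul_le_mul_right h6 (by positivity)
    have h8 : M ≤ (1 + 2 * G) / |F.coeff i₀| * W := by
      rw [div_mul_eq_mul_div, le_div_iff₀ hFpos]
      linarith
    have h9 : (1 + 2 * G) / |F.coeff i₀| * W ≤ K * W :=
      mul_le_mul_of_nonneg_right (hKi i₀ (by omega)) (by linarith)
    linarith
  refine ⟨hmid, ?_, habs⟩
  rw [Finset.sum_range_succ'] at hexp
  rw [Finset.sum_eq_zero, zero_add] at hexp
  · simp only [Nat.sub_zero, pow_zero, mul_one] at hexp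
    exact hexp
  · intro i hi
    rw [Finset.mem_range] at hi
    rcases Nat.lt_or_ge (i + 1) d with h3 | h3
    · rw [hmid (i + 1) (by omega) h3, zero_mul]
    · have : i + 1 = d := by omega
      rw [this, Nat.sub_self, pow_zero, pow_zero, one_mul, one_mul, hpoweq, sub_self, mul_zero]

end Pool.Agent.Helper53.CP
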