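import Mathlib
import Pool.Agent.Helper53.CD.Defs
import Pool.Agent.Helper53.CP.Runge

set_option autoImplicit false

namespace Pool.Agent.Helper53.CP

open Finset Polynomial Pool.Agent.Helper53.CD

/-- the `3x+1` map on the rational numbers (with odd denominator): a rational number with odd
denominator is even if its numerator is -/
def TQ (e : ℚ) : ℚ := if e.num % 2 = 0 then e / 2 else (3 * e + 1) / 2

/-- `e` is an odd rational number (numerator and denominator are odd) which is periodic under the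
`3x+1` map -/
def OddPeriodic (e : ℚ) : Prop :=
  e.num % 2 = 1 ∧ e.den % 2 = 1 ∧ ∃ j : ℕ, 1 ≤ j ∧ TQ^[j] e = e

/-- `f = c (X - r) ^ d + e` where `e` is an odd periodic rational number and the denominator of the
rational number `r` is prime to `6` -/
def Exceptional (f : ℚ[X]) : Prop :=
  ∃ c r e : ℚ, f = C c * (X - C r) ^ f.natDegree + C e ∧ Nat.Coprime r.den 6 ∧ OddPeriodic e

/-- the map on numerators, for the denominator `Q` -/
def TI (Q P : ℤ) : ℤ := if P % 2 = 0 then P / 2 else (3 * P + Q) / 2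

lemma TI_even {Q P : ℤ} (h : P % 2 = 0) : 2 * TI Q P = P := by
  unfold TI
  rw [if_pos h]; omega

lemma TI_odd {Q P : ℤ} (hQ : Q % 2 = 1) (h : P % 2 = 1) : 2 * TI Q P = 3 * P + Q := by
  unfold TI
  rw [if_neg (by omega)]; omega

lemma rat_parity {P Q : ℤ} (hQ : Q % 2 = 1) :
    ((P : ℚ) / Q).den % 2 = 1 ∧ ((P : ℚ) / Q).num % 2 = P % 2 := by
  have hQ0 : (Q : ℚ) ≠ 0 := by
    intro h
    have : Q = 0 := by exact_mod_cast h
    omega
  set q : ℚ := (P : ℚ) / Q with hq
  have h1 : (q.num : ℚ) / q.den = (P : ℚ) / Q := by rw [Rat.num_div_den]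
  have hden : (q.den : ℚ) ≠ 0 := by exact_mod_cast q.den_ne_zero
  rw [div_eq_div_iff hden hQ0] at h1
  have h2 : q.num * Q = P * q.den := by exact_mod_cast h1
  have hcop : IsCoprime (q.den : ℤ) q.num := by
    rw [Int.isCoprime_iff_gcd_eq_one, Int.gcd_comm]
    exact q.reduced
  have h3 : (q.den : ℤ) ∣ Q := by
    apply hcop.dvd_of_dvd_mul_left
    rw [h2]
    exact Dvd.intro_left P rfl
  have h4 : (q.den : ℤ) % 2 = 1 := by
    obtain ⟨w, hw⟩ := h3
    by_contra hcon
    have h5 : (q.den : ℤ) % 2 = 0 := by omega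
    obtain ⟨v, hv⟩ := Int.dvd_of_emod_eq_zero h5
    have h6 : Q = 2 * (v * w) := by rw [hw, hv]; ring
    omega
  refine ⟨by omega, ?_⟩
  have h5 : (q.num * Q) % 2 = (P * q.den) % 2 := by rw [h2]
  rw [Int.mul_emod, hQ, Int.mul_emod P, h4] at h5
  omega

lemma TQ_div {P Q : ℤ} (hQ : Q % 2 = 1) : TQ ((P : ℚ) / Q) = (TI Q P : ℚ) / Q := by
  have hQ0 : (Q : ℚ) ≠ 0 := by
    intro h
    have : Q = 0 := by exact_mod_cast h
    omega
  unfold TQ
  rw [(rat_parity hQ).2]
  split_ifs with h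
  · have h1 : (2 * TI Q P : ℚ) = P := by exact_mod_cast TI_even (Q := Q) h
    field_simp
    linarith
  · have h1 : (2 * TI Q P : ℚ) = 3 * P + Q := by exact_mod_cast TI_odd hQ (by omega)
    field_simp
    linarith

lemma TQ_iter {P Q : ℤ} (hQ : Q % 2 = 1) (j : ℕ) :
    TQ^[j] ((P : ℚ) / Q) = (((TI Q)^[j] P : ℤ) : ℚ) / Q := by
  induction j with
  | zero => rfl
  | succ j ih =>
    rw [Function.iterate_succ_apply', Function.iterate_succ_apply', ih, TQ_div hQ]

/-- trajectories of 2-adically close numbers -/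
lemma shadow {x P Q : ℤ} (hQ : Q % 2 = 1) {n : ℕ} (h : (2 : ℤ) ^ n ∣ Q * x - P) :
    ∀ t ≤ n, 2 ^ t * (Q * T^[t] x - (TI Q)^[t] P) = 3 ^ (odds x t) * (Q * x - P) ∧
      (t < n → T^[t] x % 2 = (TI Q)^[t] P % 2) := by
  intro t
  have par : ∀ t, t < n → 2 ^ t * (Q * T^[t] x - (TI Q)^[t] P) = 3 ^ (odds x t) * (Q * x - P) →
      T^[t] x % 2 = (TI Q)^[t] P % 2 := by
    intro t ht he
    have h1 : (2 : ℤ) ^ n ∣ 2 ^ t * (Q * T^[t] x - (TI Q)^[t] P) := by
      rw [he]; exact Dvd.dvd.mul_left h _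
    have h2 : (2 : ℤ) ^ n = 2 ^ t * 2 ^ (n - t) := by rw [← pow_add]; congr 1; omega
    rw [h2] at h1
    have h3 : (2 : ℤ) ^ (n - t) ∣ Q * T^[t] x - (TI Q)^[t] P :=
      Int.dvd_of_mul_dvd_mul_left (by positivity) h1
    have h4 : (2 : ℤ) ∣ Q * T^[t] x - (TI Q)^[t] P :=
      (dvd_pow_self 2 (by omega : n - t ≠ 0)).trans h3
    have h5 : (Q * T^[t] x) % 2 = T^[t] x % 2 := by
      rw [Int.mul_emod, hQ, one_mul, Int.emod_emod_of_dvd _ (dvd_refl 2)]
    omega
  induction t with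
  | zero => intro _; exact ⟨by simp [odds], fun hn => par 0 hn (by simp [odds])⟩
  | succ t ih =>
    intro ht
    obtain ⟨h1, h2⟩ := ih (by omega)
    have hpar := h2 (by omega)
    have hmain : 2 ^ (t + 1) * (Q * T^[t + 1] x - (TI Q)^[t + 1] P) =
        3 ^ (odds x (t + 1)) * (Q * x - P) := by
      rw [Function.iterate_succ_apply', Function.iterate_succ_apply', odds_succ]
      rcases Int.emod_two_eq_zero_or_one (T^[t] x) with hp | hp
      · have e1 := T_even hp
        have e2 := TI_even (Q := Q) (P := (TI Q)^[t] P) (by omega)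
        rw [if_neg (by omega), add_zero, ← h1, pow_succ]
        linear_combination (2 ^ t * Q) * e1 - 2 ^ t * e2
      · have e1 := T_odd hp
        have e2 := TI_odd (Q := Q) (P := (TI Q)^[t] P) hQ (by omega)
        rw [if_pos hp, pow_succ, pow_succ]
        linear_combination (2 ^ t * Q) * e1 - 2 ^ t * e2 + 3 * h1
    exact ⟨hmain, fun hn => par (t + 1) hn hmain⟩

/-- the fixed point of a parity word is periodic -/
lemma periodic_of_fixed {x : ℤ} {j : ℕ} (hj : 1 ≤ j) (hx : x % 2 = 1) {φ : ℤ}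
    (hφ : 2 ^ j * T^[j] x = 3 ^ (odds x j) * x + φ) {e : ℚ}
    (he : e * ((2 : ℚ) ^ j - 3 ^ (odds x j)) = φ) : OddPeriodic e := by
  set Q : ℤ := 2 ^ j - 3 ^ (odds x j) with hQd
  have hQ : Q % 2 = 1 := by
    have h1 : (2 : ℤ) ^ j % 2 = 0 := by
      apply Int.emod_eq_zero_of_dvd
      exact dvd_pow_self 2 (by omega)
    have h2 : (3 : ℤ) ^ (odds x j) % 2 = 1 := by
      have : Odd ((3 : ℤ) ^ (odds x j)) := Odd.pow (by decide)
      exact Int.odd_iff.1 this
    omega
  have hQ0 : (Q : ℚ) ≠ 0 := by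
    intro h
    have : Q = 0 := by exact_mod_cast h
    omega
  have heq : e = (φ : ℚ) / Q := by
    rw [eq_div_iff hQ0, ← he, hQd]
    push_cast
    ring
  have hdvd : (2 : ℤ) ^ j ∣ Q * x - φ := by
    refine ⟨x - T^[j] x, ?_⟩
    rw [hQd]
    linear_combination hφ
  obtain ⟨h1, -⟩ := shadow hQ hdvd j le_rfl
  obtain ⟨-, h2⟩ := shadow hQ hdvd 0 (Nat.zero_le _)
  have h3 : (TI Q)^[j] φ = φ := by
    have h4 : 2 ^ j * (Q * T^[j] x - (TI Q)^[j] φ) = 2 ^ j * (3 ^ (odds x j) * (x - T^[j] x)) := by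
      rw [h1, hQd]
      linear_combination (3 ^ (odds x j)) * hφ
    have h5 := mul_left_cancel₀ (by positivity : (2 : ℤ) ^ j ≠ 0) h4
    have h6 : (TI Q)^[j] φ = Q * T^[j] x - 3 ^ (odds x j) * (x - T^[j] x) := by linarith
    rw [h6, hQd]
    linear_combination hφ
  have h4 : φ % 2 = 1 := by
    have := h2 (by omega)
    simp only [Function.iterate_zero, id] at this
    omega
  obtain ⟨g1, g2⟩ := rat_parity (P := φ) hQ
  refine ⟨?_, ?_, j, hj, ?_⟩
  · rw [heq, g2, h4]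
  · rw [heq]; exact g1
  · rw [heq, TQ_iter hQ, h3]

end Pool.Agent.Helper53.CP
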