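import Mathlib
import Pool.Agent.Helper53.CD.Count
import Pool.Agent.Helper53.CP.Exc

set_option autoImplicit false

namespace Pool.Agent.Helper53.CP

open Finset Polynomial Pool.Agent.Helper53.CD

lemma odds_add (x : ℤ) (s t : ℕ) : odds x (s + t) = odds x s + odds (T^[s] x) t := by
  induction t with
  | zero => simp [odds]
  | succ t ih =>
    rw [← add_assoc, odds_succ, odds_succ, ih, ← Function.iterate_add_apply, add_comm t s]
    ring

lemma hasse_sub (g : ℚ[X]) (d : ℕ) (hd : 1 ≤ d) (hdeg : g.natDegree = d) (r : ℚ) :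
    (taylor r g).coeff (d - 1) = g.coeff (d - 1) + d * g.coeff d * r := by
  rw [taylor_coeff]
  have h1 : (hasseDeriv (d - 1) g).natDegree < 2 := by
    have := natDegree_hasseDeriv_le g (d - 1)
    omega
  rw [eval_eq_sum_range' h1, Finset.sum_range_succ, Finset.sum_range_one, hasseDeriv_coeff,
    hasseDeriv_coeff]
  have e1 : 0 + (d - 1) = d - 1 := by omega
  have e2 : 1 + (d - 1) = d := by omega
  rw [e1, e2, Nat.choose_self]
  have e3 : d.choose (d - 1) = d := by
    obtain ⟨m, rfl⟩ : ∃ m, d = m + 1 := ⟨d - 1, by omega⟩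
    rw [Nat.add_sub_cancel, Nat.choose_succ_self_right]
  rw [e3]
  push_cast
  ring

/-- **Pairs of values of a polynomial.** -/
theorem poly_pairs (f : ℚ[X]) (hd : 2 ≤ f.natDegree) (hf : ¬ Exceptional f) :
    ∃ C : ℕ, 1 ≤ C ∧ ∀ (x : ℤ) (j : ℕ), 1 ≤ j → x % 2 = 1 → f.natDegree ∣ j →
      f.natDegree ∣ odds x j → ((C * 3 ^ (j * C) : ℕ) : ℤ) ≤ |x| →
      (∃ u : ℤ, f.eval (u : ℚ) = x) → (∃ v : ℤ, f.eval (v : ℚ) = T^[j] x) → False := by
  classical
  set d := f.natDegree with hdd
  set c : ℚ := f.leadingCoeff with hcd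
  have hf0 : f ≠ 0 := by
    rintro rfl
    simp at hdd
    omega
  have hcq : c ≠ 0 := leadingCoeff_ne_zero.2 hf0
  have hcoeff : f.coeff d = c := rfl
  have hdq : (d : ℚ) ≠ 0 := by
    have : d ≠ 0 := by omega
    exact_mod_cast this
  set r : ℚ := -(f.coeff (d - 1)) / (d * c) with hr
  set F : ℚ[X] := taylor r f with hF
  have hFdeg : F.natDegree = d := by rw [hF, natDegree_taylor]
  have hFd : F.coeff d = c := by
    have h1 : F.coeff d = F.leadingCoeff := by rw [leadingCoeff, hFdeg]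
    rw [h1, hF, leadingCoeff_taylor]
  have hsub : F.coeff (d - 1) = 0 := by
    rw [hF, hasse_sub f d (by omega) rfl, hcoeff, hr]
    field_simp
    ring
  have heval : ∀ u : ℤ, F.eval ((u : ℚ) - r) = f.eval (u : ℚ) := by
    intro u
    rw [hF, taylor_eval, sub_add_cancel]
  set D₀ : ℕ := r.den with hD₀
  have hD₀1 : 1 ≤ D₀ := r.den_pos
  have hDz : ∀ u : ℤ, ∃ y : ℤ, (D₀ : ℚ) * ((u : ℚ) - r) = y := by
    intro u
    refine ⟨r.den * u - r.num, ?_⟩
    have hrr : (r.den : ℚ) * r = r.num := by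
      rw [mul_comm]; exact Rat.mul_den_eq_num r
    push_cast
    rw [← hrr, hD₀]; ring
  obtain ⟨K, hK1, hK⟩ := runge F d D₀ hd hFdeg (by rw [hFd]; exact hcq) hsub hD₀1
  set G : ℚ := ∑ i ∈ range (d + 1), |F.coeff i| with hG
  have hG0 : 0 ≤ G := Finset.sum_nonneg (fun i _ => abs_nonneg _)
  obtain ⟨C₁, hC₁⟩ := exists_nat_gt (G * K ^ d)
  refine ⟨C₁ + d + 1, by omega, ?_⟩
  intro x j hj hx hdj hda hbig hu hv
  obtain ⟨u, hu⟩ := hu
  obtain ⟨v, hv⟩ := hv
  obtain ⟨j', hj'⟩ := hdj
  obtain ⟨a', ha'⟩ := hda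
  obtain ⟨φ, h0, h1, h2⟩ := formula x j
  have hodd1 : 1 ≤ odds x j := by
    have h3 : odds x 1 ≤ odds x j := by
      obtain ⟨l, rfl⟩ : ∃ l, j = 1 + l := ⟨j - 1, by omega⟩
      rw [odds_add]
      omega
    have h4 : odds x 1 = 1 := by
      rw [odds_succ]
      simp [odds, hx]
    omega
  have hj'1 : 1 ≤ j' := by
    rcases Nat.eq_zero_or_pos j' with h | h
    · subst h; omega
    · exact h
  have ha'1 : 1 ≤ a' := by
    rcases Nat.eq_zero_or_pos a' with h | h
    · subst h; omega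
    · exact h
  have h3j : (1 : ℚ) ≤ 3 ^ j := one_le_pow₀ (by norm_num)
  set W : ℚ := 3 ^ j with hW
  have hα : ((2 : ℚ) ^ j') ^ d = 2 ^ j := by rw [← pow_mul, hj', mul_comm]
  have hβ : ((3 : ℚ) ^ a') ^ d = 3 ^ (odds x j) := by rw [← pow_mul, ha', mul_comm]
  have hbigz : K * W < |(u : ℚ) - r| := by
    by_contra hcon
    push Not at hcon
    have hKW : 1 ≤ K * W := by nlinarith
    have h3 : |(x : ℚ)| ≤ G * (K * W) ^ d := by
      rw [← hu, ← heval u, eval_eq_sum_range, hFdeg, hG, Finset.sum_mul]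
      refine (Finset.abs_sum_le_sum_abs _ _).trans (Finset.sum_le_sum ?_)
      intro i hi
      have hi' : i ≤ d := by have := Finset.mem_range.1 hi; omega
      rw [abs_mul, abs_pow]
      apply mul_le_mul_of_nonneg_left _ (abs_nonneg _)
      calc |(u : ℚ) - r| ^ i ≤ (K * W) ^ i := pow_le_pow_left₀ (abs_nonneg _) hcon _
        _ ≤ (K * W) ^ d := pow_le_pow_right₀ hKW hi'
    have h4 : (((C₁ + d + 1) * 3 ^ (j * (C₁ + d + 1)) : ℕ) : ℚ) ≤ |((x : ℤ) : ℚ)| := by
      exact_mod_cast hbig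
    have h5 : G * (K * W) ^ d < ((C₁ + d + 1) * 3 ^ (j * (C₁ + d + 1)) : ℕ) := by
      push_cast
      calc G * (K * W) ^ d = (G * K ^ d) * 3 ^ (j * d) := by rw [mul_pow, hW, ← pow_mul]; ring
        _ < (C₁ : ℚ) * 3 ^ (j * d) := by
            apply mul_lt_mul_of_pos_right hC₁ (by positivity)
        _ ≤ (C₁ + d + 1) * 3 ^ (j * (C₁ + d + 1)) := by
            apply mul_le_mul
            · have : (0 : ℚ) ≤ d := by positivity
              linarith
            · apply pow_le_pow_right₀ (by norm_num)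
              exact Nat.mul_le_mul_left _ (by omega)
            · positivity
            · positivity
    linarith
  have hja : ¬ (j' = 0 ∧ a' = 0) := by omega
  have hφW : |(φ : ℚ)| ≤ W := by
    have h3 : (0 : ℤ) < 2 ^ j := by positivity
    have h4 : |φ| ≤ 3 ^ j := by rw [abs_of_nonneg h0]; linarith
    rw [hW]
    exact_mod_cast h4
  have hmain := hK ((u : ℚ) - r) ((v : ℚ) - r) φ W j' a' (hDz u) (hDz v) hja h3j
    (by rw [hα]; exact pow_le_pow_left₀ (by norm_num) (by norm_num) j)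
    (by rw [hβ]; exact pow_le_pow_right₀ (by norm_num) (odds_le x j))
    hφW hbigz (by
      rw [heval, heval, hu, hv, hα, hβ]
      have h3 : ((2 ^ j * T^[j] x : ℤ) : ℚ) = ((3 ^ (odds x j) * x + φ : ℤ) : ℚ) := by rw [h2]
      push_cast at h3
      linarith)
  obtain ⟨hmid, hconst, habs⟩ := hmain
  apply hf
  refine ⟨c, r, F.coeff 0, ?_, ?_, ?_⟩
  · have hFeq : F = C c * X ^ d + C (F.coeff 0) := by
      ext i
      rw [coeff_add, coeff_C_mul_X_pow, coeff_C]
      rcases Nat.lt_trichotomy i d with h | h | h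
      · rcases Nat.eq_zero_or_pos i with h3 | h3
        · subst h3
          rw [if_neg (by omega), if_pos rfl, zero_add]
        · rw [hmid i h3 h, if_neg (by omega), if_neg (by omega), zero_add]
      · subst h
        rw [if_pos rfl, if_neg (by omega), add_zero]
        exact hFd
      · rw [coeff_eq_zero_of_natDegree_lt (by omega), if_neg (by omega), if_neg (by omega), zero_add]
    have h3 : f = taylor (-r) F := by
      rw [hF, taylor_taylor, neg_add_cancel, taylor_zero]
    have h4 : ∀ e₀ : ℚ, e₀ = F.coeff 0 → f = C c * (X - C r) ^ d + C e₀ := by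
      intro e₀ he₀
      have h5 : F = C c * X ^ d + C e₀ := by rw [he₀]; exact hFeq
      rw [h3, h5, taylor_apply]
      simp only [add_comp, mul_comp, pow_comp, C_comp, X_comp, C_neg, ← sub_eq_add_neg]
    exact h4 _ rfl
  · -- the denominator of `r`
    have hden : (r.den : ℚ) ≠ 0 := by exact_mod_cast r.den_ne_zero
    have hrr : (r.den : ℚ) * r = r.num := by
      rw [mul_comm]; exact Rat.mul_den_eq_num r
    have h3 : |2 ^ j' * ((r.den : ℤ) * v - r.num)| = |3 ^ a' * ((r.den : ℤ) * u - r.num)| := by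
      have h4 : |(r.den : ℚ)| * |(2 : ℚ) ^ j' * ((v : ℚ) - r)| =
          |(r.den : ℚ)| * |(3 : ℚ) ^ a' * ((u : ℚ) - r)| := by rw [habs]
      rw [← abs_mul, ← abs_mul] at h4
      have e1 : (r.den : ℚ) * ((2 : ℚ) ^ j' * ((v : ℚ) - r)) =
          ((2 ^ j' * ((r.den : ℤ) * v - r.num) : ℤ) : ℚ) := by
        push_cast
        rw [← hrr]; ring
      have e2 : (r.den : ℚ) * ((3 : ℚ) ^ a' * ((u : ℚ) - r)) =
          ((3 ^ a' * ((r.den : ℤ) * u - r.num) : ℤ) : ℚ) := by
        push_cast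
        rw [← hrr]; ring
      rw [e1, e2] at h4
      exact_mod_cast h4
    have hnot : ∀ p : ℕ, p.Prime → p ∣ r.den → ∀ w : ℤ, ¬ (p : ℤ) ∣ (r.den : ℤ) * w - r.num := by
      intro p hp hpd w hpw
      have h4 : (p : ℤ) ∣ (r.den : ℤ) := by exact_mod_cast hpd
      have h5 : (p : ℤ) ∣ r.num := by
        have := dvd_sub (Dvd.dvd.mul_right h4 w) hpw
        rwa [sub_sub_cancel] at this
      have h6 : p ∣ r.num.natAbs := by
        exact Int.natCast_dvd.1 h5
      have h7 := Nat.dvd_gcd h6 hpd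
      rw [r.reduced] at h7
      exact hp.one_lt.ne' (Nat.dvd_one.1 h7)
    rw [show (6 : ℕ) = 2 * 3 from rfl]
    apply Nat.Coprime.mul_right
    · rw [Nat.coprime_comm, Nat.Prime.coprime_iff_not_dvd Nat.prime_two]
      intro hdvd
      have h4 : (2 : ℤ) ∣ |2 ^ j' * ((r.den : ℤ) * v - r.num)| := by
        rw [dvd_abs]
        exact Dvd.dvd.mul_right (dvd_pow_self 2 (by omega)) _
      rw [h3, dvd_abs] at h4
      rcases Int.prime_two.dvd_or_dvd h4 with h5 | h5
      · have := Int.prime_two.dvd_of_dvd_pow h5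
        revert this; decide
      · exact hnot 2 Nat.prime_two hdvd u (by exact_mod_cast h5)
    · rw [Nat.coprime_comm, Nat.Prime.coprime_iff_not_dvd Nat.prime_three]
      intro hdvd
      have h4 : (3 : ℤ) ∣ |3 ^ a' * ((r.den : ℤ) * u - r.num)| := by
        rw [dvd_abs]
        exact Dvd.dvd.mul_right (dvd_pow_self 3 (by omega)) _
      rw [← h3, dvd_abs] at h4
      rcases Int.prime_three.dvd_or_dvd h4 with h5 | h5
      · have := Int.prime_three.dvd_of_dvd_pow h5
        revert this; decide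
      · exact hnot 3 Nat.prime_three hdvd v (by exact_mod_cast h5)
  · apply periodic_of_fixed hj hx h2
    rw [← hα, ← hβ]
    exact hconst

/-- values of a polynomial in a window -/
theorem poly_window (f : ℚ[X]) (hd : 2 ≤ f.natDegree) (hf : ¬ Exceptional f) :
    ∃ C : ℕ, 1 ≤ C ∧ ∀ (x : ℤ) (n : ℕ), (∀ t < n, ((C * 3 ^ (n * C) : ℕ) : ℤ) ≤ |T^[t] x|) →
      Set.ncard {t | t < n ∧ (T^[t] x % 2 = 1 ∧ ∃ u : ℤ, f.eval (u : ℚ) = T^[t] x)} ≤ f.natDegree ^ 2 := by
  classical
  obtain ⟨C, hC1, hC⟩ := poly_pairs f hd hf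
  refine ⟨C, hC1, ?_⟩
  intro x n hx
  have hset : {t | t < n ∧ (T^[t] x % 2 = 1 ∧ ∃ u : ℤ, f.eval (u : ℚ) = T^[t] x)} =
      (((range n).filter (fun t => T^[t] x % 2 = 1 ∧ ∃ u : ℤ, f.eval (u : ℚ) = T^[t] x) : Finset ℕ) :
        Set ℕ) := by
    ext t; simp
  rw [hset, Set.ncard_coe_finset]
  have hd0 : 0 < f.natDegree := by omega
  have key : ∀ s t : ℕ, s < t → t < n → (T^[s] x % 2 = 1 ∧ ∃ u : ℤ, f.eval (u : ℚ) = T^[s] x) →
      (T^[t] x % 2 = 1 ∧ ∃ u : ℤ, f.eval (u : ℚ) = T^[t] x) → s % f.natDegree = t % f.natDegree →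
      odds x s % f.natDegree = odds x t % f.natDegree → False := by
    intro s t hst htn hs ht e1 e2
    have h1 : T^[t - s] (T^[s] x) = T^[t] x := by
      rw [← Function.iterate_add_apply, Nat.sub_add_cancel hst.le]
    have h2 : odds x t = odds x s + odds (T^[s] x) (t - s) := by
      rw [← odds_add]; congr 1; omega
    apply hC (T^[s] x) (t - s) (by omega) hs.1
    · exact (Nat.modEq_iff_dvd' hst.le).1 e1
    · have h3 : odds x t - odds x s = odds (T^[s] x) (t - s) := by omega
      rw [← h3]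
      exact (Nat.modEq_iff_dvd' (by omega)).1 e2
    · refine le_trans ?_ (hx s (by omega))
      have h4 : C * 3 ^ ((t - s) * C) ≤ C * 3 ^ (n * C) := by
        apply Nat.mul_le_mul_left
        apply Nat.pow_le_pow_right (by norm_num)
        exact Nat.mul_le_mul_right _ (by omega)
      exact_mod_cast h4
    · exact hs.2
    · rw [h1]; exact ht.2
  calc ((range n).filter (fun t => T^[t] x % 2 = 1 ∧ ∃ u : ℤ, f.eval (u : ℚ) = T^[t] x)).card
      ≤ (range f.natDegree ×ˢ range f.natDegree).card := by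
        apply Finset.card_le_card_of_injOn
          (fun t => (t % f.natDegree, odds x t % f.natDegree))
        · intro t _
          simp only [Finset.coe_product, Finset.coe_range, Set.mem_prod, Set.mem_Iio]
          exact ⟨Nat.mod_lt _ hd0, Nat.mod_lt _ hd0⟩
        · intro s hs t ht hst
          have hs' := Finset.mem_coe.1 hs
          have ht' := Finset.mem_coe.1 ht
          rw [Finset.mem_filter, Finset.mem_range] at hs' ht'
          have e1 : s % f.natDegree = t % f.natDegree := congrArg Prod.fst hst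
          have e2 : odds x s % f.natDegree = odds x t % f.natDegree := congrArg Prod.snd hst
          rcases Nat.lt_trichotomy s t with h | h | h
          · exact (key s t h ht'.1 hs'.2 ht'.2 e1 e2).elim
          · exact h
          · exact (key t s h hs'.1 ht'.2 hs'.2 e1.symm e2.symm).elim
    _ = f.natDegree ^ 2 := by rw [Finset.card_product, Finset.card_range, pow_two]

end Pool.Agent.Helper53.CP
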