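import Mathlib
import Pool.Agent.Helper53.CP.PolyPairs

set_option autoImplicit false

namespace Pool.Agent.Helper53.CP

open Finset Polynomial Pool.Agent.Helper53.CD

/-- the number of odd numerators -/
def oddsI (Q P : ℤ) (j : ℕ) : ℕ := ((Finset.range j).filter (fun i => (TI Q)^[i] P % 2 = 1)).card

lemma oddsI_succ (Q P : ℤ) (j : ℕ) :
    oddsI Q P (j + 1) = oddsI Q P j + if (TI Q)^[j] P % 2 = 1 then 1 else 0 := by
  unfold oddsI
  rw [Finset.range_add_one, Finset.filter_insert]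
  split_ifs with h
  · rw [Finset.card_insert_of_notMem (by simp)]
  · rfl

lemma oddsI_add (Q P : ℤ) (s t : ℕ) :
    oddsI Q P (s + t) = oddsI Q P s + oddsI Q ((TI Q)^[s] P) t := by
  induction t with
  | zero => simp [oddsI]
  | succ t ih =>
    rw [← add_assoc, oddsI_succ, oddsI_succ, ih, ← Function.iterate_add_apply, add_comm t s]
    ring

lemma iter_mul {Q P : ℤ} {j₀ : ℕ} (h : (TI Q)^[j₀] P = P) (i : ℕ) : (TI Q)^[i * j₀] P = P := by
  induction i with
  | zero => simp
  | succ i ih => rw [Nat.succ_mul, Function.iterate_add_apply, h, ih]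

lemma oddsI_mul {Q P : ℤ} {j₀ : ℕ} (h : (TI Q)^[j₀] P = P) (i : ℕ) :
    oddsI Q P (i * j₀) = i * oddsI Q P j₀ := by
  induction i with
  | zero => simp [oddsI]
  | succ i ih => rw [Nat.succ_mul, oddsI_add, ih, iter_mul h]; ring

lemma odds_eq {x P Q : ℤ} (hQ : Q % 2 = 1) {n : ℕ} (h : (2 : ℤ) ^ n ∣ Q * x - P) (t : ℕ)
    (ht : t ≤ n) : odds x t = oddsI Q P t := by
  unfold odds oddsI
  congr 1
  apply Finset.filter_congr
  intro i hi
  have hi' := Finset.mem_range.1 hi
  rw [(shadow hQ h i (by omega)).2 (by omega)]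

/-- **Frequent values** of the exceptional polynomials -/
theorem many (f : ℚ[X]) (hd : 2 ≤ f.natDegree) (hint : ∀ u : ℤ, ∃ y : ℤ, f.eval (u : ℚ) = y)
    (hf : Exceptional f) :
    ∃ J : ℕ, 1 ≤ J ∧ ∀ N m : ℕ, ∃ x : ℤ, (∀ t < N, (m : ℤ) ≤ |T^[t] x|) ∧
      N ≤ J * Set.ncard {t | t < N ∧ (T^[t] x % 2 = 1 ∧ ∃ u : ℤ, f.eval (u : ℚ) = T^[t] x)} := by
  classical
  obtain ⟨c, r, e, hmap, hcop, hen, hed, j₀, hj₀, hper⟩ := hf
  obtain ⟨d, hdd⟩ : ∃ d, d = f.natDegree := ⟨_, rfl⟩
  rw [← hdd] at hmap hd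
  have hc0 : c ≠ 0 := by
    rintro rfl
    have h1 : f.natDegree = 0 := by rw [hmap]; simp
    omega
  set P : ℤ := e.num with hP
  set Q : ℤ := (e.den : ℤ) with hQd
  have hQ : Q % 2 = 1 := by omega
  have hQpos : 1 ≤ Q := by
    have := e.den_pos
    omega
  have hQr : (1 : ℚ) ≤ Q := by exact_mod_cast hQpos
  have hQ0 : (Q : ℚ) ≠ 0 := by linarith
  have heq : e = (P : ℚ) / Q := by
    rw [hP, hQd]
    exact_mod_cast (Rat.num_div_den e).symm
  have hPper : (TI Q)^[j₀] P = P := by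
    rw [heq, TQ_iter hQ, div_left_inj' hQ0] at hper
    exact_mod_cast hper
  set S : ℕ := r.den with hS
  set R : ℤ := r.num with hR
  have hSpos : 1 ≤ S := r.den_pos
  have hSr : (1 : ℚ) ≤ S := by exact_mod_cast hSpos
  have hS0 : (S : ℚ) ≠ 0 := by linarith
  have hrS : (S : ℚ) * r = R := by
    rw [hS, hR, mul_comm]; exact Rat.mul_den_eq_num r
  have hcop2 : Nat.Coprime S 2 := Nat.Coprime.coprime_dvd_right (by norm_num) hcop
  have hcop3 : Nat.Coprime S 3 := Nat.Coprime.coprime_dvd_right (by norm_num) hcop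
  set h : ℕ := Nat.totient S with hh
  have hh1 : 1 ≤ h := Nat.totient_pos.2 hSpos
  have h2h : (2 : ℤ) ^ h ≡ 1 [ZMOD S] := by
    have := Nat.ModEq.pow_totient hcop2.symm
    exact_mod_cast (Int.natCast_modEq_iff.2 this)
  have h3h : (3 : ℤ) ^ h ≡ 1 [ZMOD S] := by
    have := Nat.ModEq.pow_totient hcop3.symm
    exact_mod_cast (Int.natCast_modEq_iff.2 this)
  set a₀ : ℕ := oddsI Q P j₀ with ha₀
  set J : ℕ := (d * h) * j₀ with hJ
  have hdh : 1 ≤ d * h := Nat.mul_pos (by omega) hh1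
  have hJ1 : 1 ≤ J := Nat.mul_pos hdh hj₀
  refine ⟨J, hJ1, ?_⟩
  intro N₀ m
  obtain ⟨v, w₀, hw₀, hcden⟩ := Nat.exists_eq_two_pow_mul_odd c.den_ne_zero
  obtain ⟨N, hN⟩ : ∃ N, N = N₀ + v := ⟨_, rfl⟩
  -- choice of `u`
  have hcopN : IsCoprime (S : ℤ) ((2 : ℤ) ^ N) := by
    apply IsCoprime.pow_right
    rw [Int.isCoprime_iff_gcd_eq_one]
    exact_mod_cast hcop2
  have hcabs : (0 : ℚ) < |c| := abs_pos.2 hc0
  obtain ⟨α, β, hαβ⟩ := hcopN
  set Pmax : ℤ := ∑ t ∈ range N, |(TI Q)^[t] P| with hPmax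
  have hPmax0 : 0 ≤ Pmax := Finset.sum_nonneg (fun _ _ => abs_nonneg _)
  set B : ℤ := 2 ^ N * (Q * m + Pmax) with hB
  have hB0 : 0 ≤ B := by positivity
  obtain ⟨s, hs⟩ := exists_nat_gt (|(α * R : ℤ)| + |r| + B / |c| + 1 : ℚ)
  set u : ℤ := α * R + 2 ^ N * s with hu
  set t' : ℤ := S * s - R * β with ht'
  have hSu : S * u - R = 2 ^ N * t' := by
    rw [hu, ht']
    linear_combination R * hαβ
  have hur : (B : ℚ) / |c| + 1 ≤ (u : ℚ) - r := by
    have h1 : (1 : ℚ) ≤ 2 ^ N := one_le_pow₀ (by norm_num)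
    have h2 : (s : ℚ) ≤ 2 ^ N * s := le_mul_of_one_le_left (by positivity) h1
    have h3 := neg_abs_le ((α * R : ℤ) : ℚ)
    have h4 := le_abs_self r
    rw [hu]
    push_cast at hs h3 ⊢
    linarith
  obtain ⟨x, hx⟩ := hint u
  have hfe : ∀ w : ℤ, f.eval (w : ℚ) = c * ((w : ℚ) - r) ^ d + e := by
    intro w
    rw [hmap]
    simp
  have hxe : (Q : ℚ) * x - P = Q * (c * ((u : ℚ) - r) ^ d) := by
    rw [← hx, hfe, heq]
    field_simp
    ring
  have hcr : (c.den : ℚ) * c = c.num := by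
    rw [mul_comm]; exact Rat.mul_den_eq_num c
  have hSpow : (c.den : ℤ) * (S : ℤ) ^ d * (Q * x - P) = Q * c.num * (2 ^ N * t') ^ d := by
    have h1 : (S : ℚ) * ((u : ℚ) - r) = 2 ^ N * t' := by
      rw [mul_sub, hrS]
      exact_mod_cast hSu
    have h2 : (c.den : ℚ) * ((S : ℚ) ^ d) * ((Q : ℚ) * x - P) = Q * c.num * (2 ^ N * t') ^ d := by
      rw [hxe, ← h1, mul_pow, ← hcr]; ring
    exact_mod_cast h2
  have hdvd : (2 : ℤ) ^ N₀ ∣ Q * x - P := by
    have h1 : (2 : ℤ) ^ N ∣ (c.den : ℤ) * (S : ℤ) ^ d * (Q * x - P) := by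
      rw [hSpow]
      apply Dvd.dvd.mul_left
      rw [mul_pow]
      apply Dvd.dvd.mul_right
      exact dvd_pow_self _ (by omega)
    have h3 : (2 : ℤ) ^ v * 2 ^ N₀ ∣ 2 ^ v * ((w₀ : ℤ) * (S : ℤ) ^ d * (Q * x - P)) := by
      have e1 : (2 : ℤ) ^ v * 2 ^ N₀ = 2 ^ N := by rw [hN, pow_add]; ring
      have e2 : (2 : ℤ) ^ v * ((w₀ : ℤ) * (S : ℤ) ^ d * (Q * x - P)) =
          (c.den : ℤ) * (S : ℤ) ^ d * (Q * x - P) := by
        rw [hcden]; push_cast; ring
      rw [e1, e2]
      exact h1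
    have h4 := Int.dvd_of_mul_dvd_mul_left (by positivity) h3
    have h2 : IsCoprime ((2 : ℤ) ^ N₀) ((w₀ : ℤ) * (S : ℤ) ^ d) := by
      apply IsCoprime.mul_right
      · apply IsCoprime.pow_left
        rw [Int.isCoprime_iff_gcd_eq_one]
        have : Nat.Coprime 2 w₀ := (Nat.coprime_two_left).2 hw₀
        exact_mod_cast this
      · apply IsCoprime.pow
        rw [Int.isCoprime_iff_gcd_eq_one]
        exact_mod_cast hcop2.symm
    exact h2.dvd_of_dvd_mul_left h4
  have hbig : B ≤ |Q * x - P| := by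
    have h1 : ((B : ℤ) : ℚ) ≤ ((|Q * x - P| : ℤ) : ℚ) := by
      push_cast
      rw [hxe, abs_mul, abs_mul, abs_pow, abs_of_pos (by linarith : (0 : ℚ) < Q)]
      have hB0q : (0 : ℚ) ≤ B := by exact_mod_cast hB0
      have hBc : (0 : ℚ) ≤ B / |c| := by positivity
      have hur1 : (1 : ℚ) ≤ (u : ℚ) - r := by linarith
      have hpos : (0 : ℚ) ≤ (u : ℚ) - r := by linarith
      rw [abs_of_nonneg hpos]
      have h2 : (u : ℚ) - r ≤ ((u : ℚ) - r) ^ d := le_self_pow₀ hur1 (by omega)
      have h3 : (B : ℚ) / |c| ≤ ((u : ℚ) - r) ^ d := by linarith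
      have h4 : (B : ℚ) ≤ |c| * ((u : ℚ) - r) ^ d := by
        rw [div_le_iff₀ hcabs] at h3
        linarith
      have h5 : |c| * ((u : ℚ) - r) ^ d ≤ Q * (|c| * ((u : ℚ) - r) ^ d) :=
        le_mul_of_one_le_left (by positivity) hQr
      linarith
    exact_mod_cast h1
  refine ⟨x, ?_, ?_⟩
  · intro t ht
    have h1 := (shadow hQ hdvd t ht.le).1
    have h2 : 2 ^ t * (Q * m + Pmax) ≤ 2 ^ t * |Q * T^[t] x - (TI Q)^[t] P| := by
      calc (2 : ℤ) ^ t * (Q * m + Pmax) ≤ 2 ^ N * (Q * m + Pmax) := by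
            apply mul_le_mul_of_nonneg_right _ (by positivity)
            exact pow_le_pow_right₀ (by norm_num) (by omega)
        _ ≤ |Q * x - P| := hbig
        _ ≤ 3 ^ (odds x t) * |Q * x - P| :=
            le_mul_of_one_le_left (abs_nonneg _) (one_le_pow₀ (by norm_num))
        _ = |3 ^ (odds x t) * (Q * x - P)| := by
            rw [abs_mul, abs_of_pos (by positivity : (0 : ℤ) < 3 ^ (odds x t))]
        _ = 2 ^ t * |Q * T^[t] x - (TI Q)^[t] P| := by
            rw [← h1, abs_mul, abs_of_pos (by positivity : (0 : ℤ) < 2 ^ t)]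
    have h3 : Q * m + Pmax ≤ |Q * T^[t] x - (TI Q)^[t] P| :=
      le_of_mul_le_mul_left h2 (by positivity)
    have h4 : |(TI Q)^[t] P| ≤ Pmax :=
      Finset.single_le_sum (f := fun t => |(TI Q)^[t] P|) (fun _ _ => abs_nonneg _)
        (Finset.mem_range.2 (by omega))
    have h5 : |Q * T^[t] x - (TI Q)^[t] P| ≤ |Q * T^[t] x| + |(TI Q)^[t] P| := abs_sub _ _
    have h6 : |Q * T^[t] x| = Q * |T^[t] x| := by
      rw [abs_mul, abs_of_pos (by linarith : (0 : ℤ) < Q)]
    have h7 : Q * m ≤ Q * |T^[t] x| := by linarith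
    exact le_of_mul_le_mul_left h7 (by linarith)
  · set q : ℕ := (N₀ + J - 1) / J with hq
    have hq1 : N₀ ≤ J * q := by
      have h1 := Nat.div_add_mod (N₀ + J - 1) J
      have h2 := Nat.mod_lt (N₀ + J - 1) hJ1
      rw [← hq] at h1
      omega
    have hq2 : ∀ i < q, i * J < N₀ := by
      intro i hi
      have h1 : (i + 1) * J ≤ q * J := Nat.mul_le_mul_right _ hi
      have h2 : q * J ≤ N₀ + J - 1 := Nat.div_mul_le_self _ _
      have h3 : (i + 1) * J = i * J + J := by ring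
      omega
    refine hq1.trans (Nat.mul_le_mul_left _ ?_)
    have hfin : {t | t < N₀ ∧ (T^[t] x % 2 = 1 ∧
        ∃ u : ℤ, f.eval (u : ℚ) = T^[t] x)}.Finite :=
      (Set.finite_lt_nat N₀).subset (fun t ht => ht.1)
    calc q = ((range q).image (fun i => i * J)).card := by
          rw [Finset.card_image_of_injective _ (fun a b hab => Nat.eq_of_mul_eq_mul_right hJ1 hab),
            Finset.card_range]
      _ = Set.ncard ((((range q).image (fun i => i * J) : Finset ℕ)) : Set ℕ) :=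
          (Set.ncard_coe_finset _).symm
      _ ≤ _ := by
          apply Set.ncard_le_ncard _ hfin
          intro t ht
          rw [Finset.mem_coe, Finset.mem_image] at ht
          obtain ⟨i, hi, rfl⟩ := ht
          have hiq := hq2 i (Finset.mem_range.1 hi)
          have hPt : (TI Q)^[i * J] P = P := by
            rw [hJ, ← mul_assoc]; exact iter_mul hPper _
          obtain ⟨h1, h2⟩ := shadow hQ hdvd (i * J) hiq.le
          have h2' := h2 hiq
          rw [hPt] at h1 h2'
          refine ⟨hiq, by omega, ?_⟩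
          -- the preimage
          have hodds : odds x (i * J) = (i * (d * h)) * a₀ := by
            rw [odds_eq hQ hdvd (i * J) hiq.le, hJ, ← mul_assoc, oddsI_mul hPper]
          have hli : j₀ * h * i ≤ N := by
            have h3 : j₀ * h * i ≤ i * J := by
              have h4 : i * J = d * (j₀ * h * i) := by rw [hJ]; ring
              rw [h4]
              exact Nat.le_mul_of_pos_left _ (by omega)
            omega
          have hmod : (S : ℤ) ∣ R + 3 ^ (a₀ * h * i) * (2 ^ (N - j₀ * h * i) * t') := by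
            have e3 : (3 : ℤ) ^ (a₀ * h * i) ≡ 1 [ZMOD S] := by
              have := h3h.pow (a₀ * i)
              rw [one_pow, ← pow_mul] at this
              have e : h * (a₀ * i) = a₀ * h * i := by ring
              rwa [e] at this
            have e2 : (2 : ℤ) ^ N ≡ 2 ^ (N - j₀ * h * i) [ZMOD S] := by
              have h5 := h2h.pow (j₀ * i)
              rw [one_pow, ← pow_mul] at h5
              have e : h * (j₀ * i) = j₀ * h * i := by ring
              rw [e] at h5
              have h6 : (2 : ℤ) ^ N = 2 ^ (N - j₀ * h * i) * 2 ^ (j₀ * h * i) := by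
                rw [← pow_add]; congr 1; omega
              rw [h6]
              simpa using (Int.ModEq.refl ((2 : ℤ) ^ (N - j₀ * h * i))).mul h5
            have h7 : R + 3 ^ (a₀ * h * i) * (2 ^ (N - j₀ * h * i) * t') ≡
                R + 1 * (2 ^ N * t') [ZMOD S] :=
              (Int.ModEq.refl R).add (e3.mul (e2.symm.mul (Int.ModEq.refl t')))
            have h8 : R + 1 * (2 ^ N * t') = S * u := by linarith
            rw [h8] at h7
            apply Int.dvd_of_emod_eq_zero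
            rw [h7]
            exact Int.mul_emod_right _ _
          obtain ⟨w, hw⟩ := hmod
          refine ⟨w, ?_⟩
          have hwr : (S : ℚ) * ((w : ℚ) - r) = 3 ^ (a₀ * h * i) * (2 ^ (N - j₀ * h * i) * t') := by
            rw [mul_sub, hrS]
            have : ((S * w : ℤ) : ℚ) =
                ((R + 3 ^ (a₀ * h * i) * (2 ^ (N - j₀ * h * i) * t') : ℤ) : ℚ) := by rw [hw]
            push_cast at this
            linarith
          have hur' : (S : ℚ) * ((u : ℚ) - r) = 2 ^ N * t' := by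
            rw [mul_sub, hrS]
            exact_mod_cast hSu
          have hrel : (2 : ℚ) ^ (j₀ * h * i) * ((w : ℚ) - r) =
              3 ^ (a₀ * h * i) * ((u : ℚ) - r) := by
            have h5 : (S : ℚ) * ((2 : ℚ) ^ (j₀ * h * i) * ((w : ℚ) - r)) =
                S * (3 ^ (a₀ * h * i) * ((u : ℚ) - r)) := by
              have h6 : (2 : ℚ) ^ N = 2 ^ (N - j₀ * h * i) * 2 ^ (j₀ * h * i) := by
                rw [← pow_add]; congr 1; omega
              calc (S : ℚ) * ((2 : ℚ) ^ (j₀ * h * i) * ((w : ℚ) - r))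
                  = 2 ^ (j₀ * h * i) * (S * ((w : ℚ) - r)) := by ring
                _ = 3 ^ (a₀ * h * i) * (2 ^ N * t') := by rw [hwr, h6]; ring
                _ = S * (3 ^ (a₀ * h * i) * ((u : ℚ) - r)) := by rw [← hur']; ring
            exact mul_left_cancel₀ hS0 h5
          have hrel2 : (2 : ℚ) ^ (i * J) * ((w : ℚ) - r) ^ d =
              3 ^ ((i * (d * h)) * a₀) * ((u : ℚ) - r) ^ d := by
            have h5 : ((2 : ℚ) ^ (j₀ * h * i) * ((w : ℚ) - r)) ^ d =
                (3 ^ (a₀ * h * i) * ((u : ℚ) - r)) ^ d := by rw [hrel]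
            rw [mul_pow, mul_pow, ← pow_mul, ← pow_mul] at h5
            have e1 : i * J = j₀ * h * i * d := by rw [hJ]; ring
            have e2 : (i * (d * h)) * a₀ = a₀ * h * i * d := by ring
            rw [e1, e2]
            exact h5
          have h5 : (2 : ℚ) ^ (i * J) * (Q * T^[i * J] x - P) =
              3 ^ ((i * (d * h)) * a₀) * (Q * x - P) := by
            rw [hodds] at h1
            exact_mod_cast h1
          have h6 : (2 : ℚ) ^ (i * J) * (Q * T^[i * J] x - P) =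
              2 ^ (i * J) * (Q * f.eval (w : ℚ) - P) := by
            rw [h5, hxe, hfe, heq]
            have e1 : (Q : ℚ) * (c * ((w : ℚ) - r) ^ d + P / Q) - P =
                Q * c * ((w : ℚ) - r) ^ d := by field_simp; ring
            rw [e1]
            linear_combination (-(Q : ℚ) * c) * hrel2
          have h7 := mul_left_cancel₀ (by positivity : (2 : ℚ) ^ (i * J) ≠ 0) h6
          have h8 : (Q : ℚ) * T^[i * J] x = Q * f.eval (w : ℚ) := by linarith
          have h9 := mul_left_cancel₀ hQ0 h8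
          exact h9.symm

end Pool.Agent.Helper53.CP
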