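import Mathlib
import Pool.Agent.Helper53.CD.Main

set_option autoImplicit false

namespace Pool.Agent.Helper53.CP

open Finset Pool.Agent.Helper53.CD

/-- from windows to stretches and cycles -/
theorem stretch_of_window (P : ℤ → Prop) (C₀ B : ℕ) (hC₀ : 1 ≤ C₀)
    (hW : ∀ (x : ℤ) (n : ℕ), (∀ t < n, ((C₀ * 3 ^ (n * C₀) : ℕ) : ℤ) ≤ |T^[t] x|) →
      Set.ncard {t | t < n ∧ P (T^[t] x)} ≤ B) :
    ∃ C : ℕ, (∀ (x : ℤ) (n m : ℕ), 2 ≤ m → (∀ t < n, (m : ℤ) ≤ |T^[t] x|) →
      (Set.ncard {t | t < n ∧ P (T^[t] x)} : ℝ) ≤ C * (1 + n / Real.log m)) ∧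
    (∀ (x : ℤ) (p m : ℕ), 1 ≤ p → T^[p] x = x → 2 ≤ m → (∀ t < p, (m : ℤ) ≤ |T^[t] x|) →
      (Set.ncard {t | t < p ∧ P (T^[t] x)} : ℝ) ≤ C * (p / Real.log m)) := by
  classical
  have hset : ∀ (x : ℤ) (n : ℕ), {t | t < n ∧ P (T^[t] x)} =
      (((range n).filter (fun t => P (T^[t] x)) : Finset ℕ) : Set ℕ) := by
    intro x n; ext t; simp
  set M₀ : ℕ := C₀ ^ 4 + 3 ^ (4 * C₀) with hM₀
  set C : ℕ := B * (32 * C₀) + M₀ with hC
  have hCr : (C : ℝ) = B * (32 * C₀) + M₀ := by rw [hC]; push_cast; ring
  have key : ∀ (x : ℤ) (n m : ℕ), 2 ≤ m → (∀ t < n, (m : ℤ) ≤ |T^[t] x|) →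
      (Set.ncard {t | t < n ∧ P (T^[t] x)} : ℝ) ≤ C * (1 + n / Real.log m) := by
    intro x n m hm hx
    have hlogm : 0 < Real.log m := Real.log_pos (by exact_mod_cast (by omega : 1 < m))
    rw [hset, Set.ncard_coe_finset]
    by_cases hmM : m < M₀
    · have h2 : (((range n).filter (fun t => P (T^[t] x))).card : ℝ) ≤ n := by
        exact_mod_cast (Finset.card_filter_le _ _).trans (by simp)
      have h3 : Real.log m ≤ C := by
        have h4 : Real.log m ≤ m := (Real.log_le_sub_one_of_pos (by positivity)).trans (by linarith)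
        have h5 : (m : ℝ) ≤ C := by exact_mod_cast (by omega : m ≤ C)
        linarith
      have h6 : (n : ℝ) ≤ C * (n / Real.log m) := by
        rw [← mul_div_assoc, le_div_iff₀ hlogm]
        nlinarith [Nat.cast_nonneg (α := ℝ) n]
      have h7 : (0 : ℝ) ≤ C := by positivity
      nlinarith
    · push Not at hmM
      have hM1 : C₀ ^ 4 ≤ m := (Nat.le_add_right _ _).trans hmM
      have hM2 : 3 ^ (4 * C₀) ≤ m := (Nat.le_add_left _ _).trans hmM
      have hC₀r : (1 : ℝ) ≤ C₀ := by exact_mod_cast hC₀
      have hlog3 : 0 < Real.log 3 := Real.log_pos (by norm_num)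
      have hlog3' : Real.log 3 ≤ 2 :=
        (Real.log_le_sub_one_of_pos (by norm_num)).trans (by norm_num)
      have hl1 : 4 * Real.log C₀ ≤ Real.log m := by
        have : Real.log ((C₀ : ℝ) ^ 4) ≤ Real.log m :=
          Real.log_le_log (by positivity) (by exact_mod_cast hM1)
        rw [Real.log_pow] at this
        exact_mod_cast this
      have hl2 : 4 * C₀ * Real.log 3 ≤ Real.log m := by
        have : Real.log ((3 : ℝ) ^ (4 * C₀)) ≤ Real.log m :=
          Real.log_le_log (by positivity) (by exact_mod_cast hM2)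
        rw [Real.log_pow] at this
        push_cast at this
        exact this
      set L : ℕ := ⌊Real.log m / (4 * C₀ * Real.log 3)⌋₊ with hL
      have hden : 0 < 4 * C₀ * Real.log 3 := by positivity
      have hL1 : 1 ≤ L := by
        rw [hL]
        apply Nat.le_floor
        rw [Nat.cast_one, le_div_iff₀ hden, one_mul]
        exact hl2
      have hLle : L * (4 * C₀ * Real.log 3) ≤ Real.log m := by
        have : (L : ℝ) ≤ Real.log m / (4 * C₀ * Real.log 3) := Nat.floor_le (by positivity)
        rwa [le_div_iff₀ hden] at this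
      have hLge : Real.log m ≤ 2 * L * (4 * C₀ * Real.log 3) := by
        have h1 : Real.log m / (4 * C₀ * Real.log 3) < L + 1 := Nat.lt_floor_add_one _
        rw [div_lt_iff₀ hden] at h1
        have h2 : (1 : ℝ) ≤ L := by exact_mod_cast hL1
        nlinarith
      have hcond : C₀ * 3 ^ (L * C₀) ≤ m := by
        have hlog : Real.log ((C₀ * 3 ^ (L * C₀) : ℕ) : ℝ) ≤ Real.log m := by
          push_cast
          rw [Real.log_mul (by positivity) (by positivity), Real.log_pow]
          push_cast
          nlinarith
        have h3 : ((C₀ * 3 ^ (L * C₀) : ℕ) : ℝ) ≤ m := by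
          rw [Real.log_le_log_iff (by positivity) (by positivity)] at hlog
          exact hlog
        exact_mod_cast h3
      have hP : ∀ i, (((range n).filter (fun t => P (T^[t] x))).filter
          (fun t => i * L ≤ t ∧ t < (i + 1) * L)).card ≤ B := by
        intro i
        have h1 := hW (T^[i * L] x) (min L (n - i * L)) (by
          intro t ht
          rw [← Function.iterate_add_apply]
          have h2 := hx (t + i * L) (by omega)
          refine le_trans ?_ h2
          have h3 : C₀ * 3 ^ (min L (n - i * L) * C₀) ≤ C₀ * 3 ^ (L * C₀) := by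
            apply Nat.mul_le_mul_left
            apply Nat.pow_le_pow_right (by norm_num)
            exact Nat.mul_le_mul_right _ (min_le_left _ _)
          exact_mod_cast h3.trans hcond)
        rw [hset, Set.ncard_coe_finset] at h1
        refine le_trans (Finset.card_le_card_of_injOn (fun t => t - i * L) ?_ ?_) h1
        · intro t ht
          have ht' := Finset.mem_coe.1 ht
          rw [Finset.mem_filter, Finset.mem_filter, Finset.mem_range] at ht'
          simp only [Finset.coe_filter, Finset.mem_range, Set.mem_setOf_eq]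
          obtain ⟨⟨g1, g2⟩, g3, g4⟩ := ht'
          have g5 : (i + 1) * L = i * L + L := by ring
          refine ⟨by omega, ?_⟩
          rw [← Function.iterate_add_apply, Nat.sub_add_cancel g3]
          exact g2
        · intro t ht s hs hts
          have ht' := Finset.mem_coe.1 ht
          have hs' := Finset.mem_coe.1 hs
          rw [Finset.mem_filter] at ht' hs'
          have e : t - i * L = s - i * L := hts
          omega
      have h1 := count_windows (fun t => P (T^[t] x)) (L := L) (B := B) (n := n) hL1 hP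
      have h2 : (((range n).filter (fun t => P (T^[t] x))).card : ℝ) ≤ B * (n / L + 1) := by
        have h3 : (((range n).filter (fun t => P (T^[t] x))).card : ℝ) ≤
            ((B * (n / L + 1) : ℕ) : ℝ) := by
          exact_mod_cast h1
        push_cast at h3
        refine h3.trans ?_
        have h4 : ((n / L : ℕ) : ℝ) ≤ (n : ℝ) / L := Nat.cast_div_le
        gcongr
      have hLpos : (0 : ℝ) < L := by exact_mod_cast hL1
      have h5 : (n : ℝ) / L ≤ 16 * C₀ * (n / Real.log m) := by
        rw [div_le_iff₀ hLpos]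
        have h6 : Real.log m ≤ 16 * C₀ * L := by
          calc Real.log m ≤ 2 * L * (4 * C₀ * Real.log 3) := hLge
            _ ≤ 2 * L * (4 * C₀ * 2) := by gcongr
            _ = 16 * C₀ * L := by ring
        have h7 : (n : ℝ) = n / Real.log m * Real.log m := by field_simp
        calc (n : ℝ) = n / Real.log m * Real.log m := h7
          _ ≤ n / Real.log m * (16 * C₀ * L) := by gcongr
          _ = 16 * C₀ * (n / Real.log m) * L := by ring
      have h8 : (0 : ℝ) ≤ n / Real.log m := by positivity
      calc (((range n).filter (fun t => P (T^[t] x))).card : ℝ) ≤ B * (n / L + 1) := h2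
        _ ≤ B * (16 * C₀ * (n / Real.log m) + 1) := by gcongr
        _ ≤ (B * (32 * C₀) + M₀) * (1 + n / Real.log m) := by
            have h9 : (0 : ℝ) ≤ (M₀ : ℝ) := by positivity
            have h10 : (0 : ℝ) ≤ B * C₀ * (n / Real.log m) := by positivity
            have h11 : (B : ℝ) * 1 ≤ B * C₀ := by gcongr
            nlinarith [mul_nonneg h9 h8]
        _ = C * (1 + n / Real.log m) := by rw [hCr]
  refine ⟨3 * C, ?_, ?_⟩
  · intro x n m hm hx
    have hlogm : 0 < Real.log m := Real.log_pos (by exact_mod_cast (by omega : 1 < m))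
    refine (key x n m hm hx).trans ?_
    push_cast
    have h4 : (0 : ℝ) ≤ C * (1 + n / Real.log m) := by positivity
    linarith
  · intro x p m hp hper hm hx
    have hlogm : 0 < Real.log m := Real.log_pos (by exact_mod_cast (by omega : 1 < m))
    have h5 : Real.log m ≤ 2 * p := log_le_two_mul hp hper hm (hx 0 (by omega))
    have h6 : (1 : ℝ) ≤ 2 * (p / Real.log m) := by
      rw [← mul_div_assoc, le_div_iff₀ hlogm, one_mul]
      exact h5
    refine (key x p m hm hx).trans ?_
    push_cast
    have h7 : (0 : ℝ) ≤ C := by positivity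
    nlinarith

end Pool.Agent.Helper53.CP
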