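import Mathlib
import Pool.Agent.Helper53.CP.Window
import Pool.Agent.Helper53.CP.Many

set_option autoImplicit false

namespace Pool.Agent.Helper53.CP

open Finset Polynomial Pool.Agent.Helper53.CD

/-- the exceptional polynomials violate every bound `C (1 + n / log m)` -/
theorem not_bounded (f : ℚ[X]) (hd : 2 ≤ f.natDegree)
    (hint : ∀ u : ℤ, ∃ y : ℤ, f.eval (u : ℚ) = y) (hf : Exceptional f) :
    ¬ ∃ C : ℕ, ∀ (x : ℤ) (n m : ℕ), 2 ≤ m → (∀ t < n, (m : ℤ) ≤ |T^[t] x|) →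
      (Set.ncard {t | t < n ∧ (T^[t] x % 2 = 1 ∧ ∃ u : ℤ, f.eval (u : ℚ) = T^[t] x)} : ℝ) ≤
        C * (1 + n / Real.log m) := by
  rintro ⟨C, hC⟩
  obtain ⟨J, hJ, hmany⟩ := many f hd hint hf
  set N : ℕ := J * (2 * C + 1) with hN
  have hN1 : 1 ≤ N := Nat.mul_pos hJ (by omega)
  obtain ⟨x, hx, hcount⟩ := hmany N (3 ^ N)
  have h3N : 2 ≤ 3 ^ N := by
    calc 2 ≤ 3 ^ 1 := by norm_num
      _ ≤ 3 ^ N := Nat.pow_le_pow_right (by norm_num) hN1
  have h1 := hC x N (3 ^ N) h3N hx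
  set k := Set.ncard {t | t < N ∧ (T^[t] x % 2 = 1 ∧ ∃ u : ℤ, f.eval (u : ℚ) = T^[t] x)} with hk
  have hNpos : (0 : ℝ) < N := by exact_mod_cast hN1
  have hlog : (N : ℝ) ≤ Real.log ((3 ^ N : ℕ) : ℝ) := by
    push_cast
    rw [Real.log_pow]
    have h2 : (1 : ℝ) ≤ Real.log 3 := by
      rw [Real.le_log_iff_exp_le (by norm_num)]
      have := Real.exp_one_lt_d9
      linarith
    nlinarith
  have h2 : (N : ℝ) / Real.log ((3 ^ N : ℕ) : ℝ) ≤ 1 := by
    rw [div_le_one (by linarith)]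
    exact hlog
  have h3 : (k : ℝ) ≤ 2 * C := by
    have h4 : (0 : ℝ) ≤ C := by positivity
    nlinarith
  have h4 : k ≤ 2 * C := by exact_mod_cast h3
  have h5 : N ≤ J * (2 * C) := hcount.trans (Nat.mul_le_mul_left _ h4)
  rw [hN] at h5
  nlinarith

lemma coeff_sub_pow (r : ℚ) (n k : ℕ) :
    ((X - C r) ^ n : ℚ[X]).coeff k = (-r) ^ (n - k) * (n.choose k : ℚ) := by
  rw [sub_eq_add_neg, ← C_neg, coeff_X_add_C_pow]

lemma TQ_int (x : ℤ) (j : ℕ) : TQ^[j] (x : ℚ) = ((T^[j] x : ℤ) : ℚ) := by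
  have h1 : ∀ y : ℤ, TI 1 y = T y := fun y => by unfold TI T; rfl
  have h2 : TI 1 = T := funext h1
  have h3 := TQ_iter (P := x) (Q := 1) (by norm_num) j
  rw [h2] at h3
  simpa using h3

/-- `X ^ d + e`, for an integer `e`, is exceptional if and only if `e` is odd and lies on a cycle -/
theorem exceptional_iff {d : ℕ} (hd : 2 ≤ d) {e : ℤ} :
    Exceptional (X ^ d + C (e : ℚ)) ↔ e % 2 = 1 ∧ ∃ p : ℕ, 1 ≤ p ∧ T^[p] e = e := by
  have hdeg : (X ^ d + C (e : ℚ) : ℚ[X]).natDegree = d := natDegree_X_pow_add_C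
  constructor
  · rintro ⟨c, r, e', hmap, -, hodd, -, p, hp, hper⟩
    rw [hdeg] at hmap
    have hcoef : ∀ k, (X ^ d + C (e : ℚ) : ℚ[X]).coeff k =
        (C c * (X - C r) ^ d + C e').coeff k := fun k => by rw [← hmap]
    have hc1 : c = 1 := by
      have h := hcoef d
      rw [coeff_add, coeff_X_pow, if_pos rfl, coeff_C, if_neg (by omega), coeff_add, coeff_C_mul,
        coeff_sub_pow, coeff_C, if_neg (by omega)] at h
      simpa using h.symm
    have hr0 : r = 0 := by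
      have h := hcoef (d - 1)
      have e1 : d - (d - 1) = 1 := by omega
      have e2 : d.choose (d - 1) = d := by
        obtain ⟨m, rfl⟩ : ∃ m, d = m + 1 := ⟨d - 1, by omega⟩
        rw [Nat.add_sub_cancel, Nat.choose_succ_self_right]
      rw [coeff_add, coeff_X_pow, if_neg (by omega), coeff_C, if_neg (by omega), coeff_add,
        coeff_C_mul, coeff_sub_pow, coeff_C, if_neg (by omega), e1, e2, hc1] at h
      have hdq : (d : ℚ) ≠ 0 := by
        have : d ≠ 0 := by omega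
        exact_mod_cast this
      have h2 : r * d = 0 := by linarith
      rcases mul_eq_zero.1 h2 with h3 | h3
      · exact h3
      · exact absurd h3 hdq
    have he' : e' = e := by
      have h := hcoef 0
      rw [hr0] at h
      have hd0 : ¬ (0 = d) := by omega
      simp [hd0] at h
      exact h.symm
    rw [he', TQ_int] at hper
    rw [he'] at hodd
    exact ⟨by simpa using hodd, p, hp, by exact_mod_cast hper⟩
  · rintro ⟨he, p, hp, hper⟩
    refine ⟨1, 0, e, ?_, by simp, ?_, by simp, p, hp, ?_⟩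
    · rw [hdeg]; simp
    · simpa using he
    · rw [TQ_int, hper]

end Pool.Agent.Helper53.CP
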